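import Pool.Agent.helper58.FI4E.Spec
import Pool.Agent.helper12.FI.PureF

set_option autoImplicit false

namespace Pool.Agent.FI4E

open Pool.Agent.helper58.DC Pool.Agent.DI Pool.Agent.GR Pool.Agent.OB Pool.Agent.DR Pool.Agent.FI Pool.Agent.FI3 Pool.Agent.FI4 Pool.Agent.FI4I

theorem DHZ (hA13 : A13_stmt) (hHN4 : HN4_stmt) : DHZ_stmt := by
  intro p M hS G E A _ _ _ _ _ X D x θ χ hR hH a ha d hd U
  have : Fact p.Prime := ⟨hS.pr⟩
  unfold altSum
  refine finsum_eq_zero_of_forall_eq_zero fun c => ?_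
  have hk : kC X p M χ d U c.out.1 = 0 := by
    unfold kC
    obtain ⟨Q, -, -, h1, h2, h3, h4⟩ := hA13 G p c.out.1 c.out.2
    have hE : IsEmpty {ψ : G → ℂ // ψ ∈ IrrOn (nrm c.out.1) ∧ Defect p (nrm c.out.1) ψ d ∧ Induces M ψ χ ∧
        (X.stab c.out.1 ψ).map X.proj = U} := by
      constructor
      rintro ⟨ψ, h5, h6, h7, -⟩
      exact hd (PF_defect_unique p _ ψ _ _ h6 (hHN4 p M hS G D x θ χ hR hH Q (nrm c.out.1) h1 h2 h4 h3 ψ ⟨h5, h7⟩ a ha))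
    exact Nat.card_of_isEmpty
  rw [hk, Nat.cast_zero, mul_zero]

end Pool.Agent.FI4E
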